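import Pool.Agent.Q192.QM.NonAm

/-! MP_ac6992_gt, Q1: disproof. There is a finitely generated, non-amenable subgroup `H` of
`Map(ℝ² ∖ C)` with `Q̃(H) = 0`. -/

set_option autoImplicit false

open Pool.Agent.H659R3.BigMCG Pool.Agent.Q192.QM

namespace Pool.Agent.Results.MP_ac6992_gt.NonAmenableNoQuasimorphisms

/-- The mapping class group `Map(S) = Homeo⁺(S) / Homeo₀(S)` of `S = ℂ ∖ C`. -/
def MCG : Type := Map S

/-- The group structure of `Map(S)`. -/
noncomputable instance instGroupMCG : Group MCG := Pool.Agent.H659R3.BigMCG.instGroupMap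

/-- The set `C` is a Cantor set in the plane, and the mapping class group of `S = ℂ ∖ C` has a
finitely generated subgroup `H` which is not amenable, although all homogeneous quasimorphisms
on `H` are homomorphisms, that is, `Q(H) = Hom(H, ℝ)` and `Q̃(H) = 0`. -/
theorem result :
    Nonempty (C ≃ₜ (ℕ → Bool)) ∧
    ∃ H : Subgroup MCG, H.FG ∧ ¬ IsAmenable H ∧
      ∀ φ : H → ℝ, IsHQM φ → ∀ g h : H, φ (g * h) = φ g + φ h := by
  constructor
  · let h : C ≃ₜ cantorSet :=
      { toFun := fun z => ⟨(z : ℂ).re, z.2.2⟩
        invFun := fun x => ⟨((x : ℝ) : ℂ), ⟨Complex.ofReal_im _, x.2⟩⟩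
        left_inv := fun z => by
          apply Subtype.ext
          apply Complex.ext
          · exact Complex.ofReal_re _
          · exact (Complex.ofReal_im _).trans z.2.1.symm
        right_inv := fun x => Subtype.ext (Complex.ofReal_re _)
        continuous_toFun := (Complex.continuous_re.comp continuous_subtype_val).subtype_mk _
        continuous_invFun :=
          (Complex.continuous_ofReal.comp continuous_subtype_val).subtype_mk _ }
    exact ⟨h.trans cantorSetHomeomorphNatToBool⟩
  · exact ⟨H, H_fg, H_not_amenable, fun φ hφ g h => H_hom hφ g h⟩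

end Pool.Agent.Results.MP_ac6992_gt.NonAmenableNoQuasimorphisms
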